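import Pool.Agent.PropB.Main

/-!
# Finite-dimensional spaces with an almost everywhere flat sphere have property B

If `Y` is a finite-dimensional real or complex normed space whose norm is, in a neighbourhood of
almost every point, the modulus of a linear functional, then `Y` has Lindenstrauss' property B.
-/

open MeasureTheory Topology Filter Pool.Agent.PropB

namespace Pool.Agent.Results.MP_152ea0_an.AlmostEverywhereFlat

theorem result.{u, v, w} (𝕜 : Type u) (Y : Type v) [RCLike 𝕜] [NormedAddCommGroup Y]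
    [NormedSpace 𝕜 Y] [FiniteDimensional 𝕜 Y] [MeasurableSpace Y] [BorelSpace Y]
    (μ : Measure Y) [μ.IsAddHaarMeasure]
    (hflat : ∀ᵐ y ∂μ, ∃ F : Y →L[𝕜] 𝕜, ∀ᶠ z in 𝓝 y, ‖z‖ = ‖F z‖) :
    PropertyB.{u, v, w} 𝕜 Y :=
  propertyB_of_ae_flat 𝕜 Y μ hflat

end Pool.Agent.Results.MP_152ea0_an.AlmostEverywhereFlat
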