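import Pool.Agent.PropBC.Main

/-!
# Complex strictly convex spaces of dimension at least two fail property B

The domain is `X = L¹(𝕋) / H¹₀`, the predual of `H^∞`: every norm-attaining operator from `X` to a
complex finite-dimensional space `Y` has its range in the span of a face of the unit ball of `Y`.
-/

open Pool.Agent.PropB Pool.Agent.PropBC

namespace Pool.Agent.Results.MP_152ea0_an.ComplexStrictlyConvex

/-- Every complex finite-dimensional space with property B is spanned by a face of its unit ball. -/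
theorem spanning_face.{v} (Y : Type v) [NormedAddCommGroup Y] [NormedSpace ℂ Y]
    [FiniteDimensional ℂ Y] [Nontrivial Y] (hB : PropertyB.{0, v, 0} ℂ Y) :
    ∃ F : Y →L[ℂ] ℂ, ‖F‖ = 1 ∧ Submodule.span ℂ {y : Y | ‖y‖ ≤ 1 ∧ F y = 1} = ⊤ :=
  exists_spanning_face Y hB

/-- No strictly convex complex normed space of finite dimension at least two has property B. -/
theorem result.{v} (Y : Type v) [NormedAddCommGroup Y] [NormedSpace ℂ Y] [StrictConvexSpace ℝ Y]
    [FiniteDimensional ℂ Y] (hY : 2 ≤ Module.finrank ℂ Y) : ¬ PropertyB.{0, v, 0} ℂ Y := by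
  intro hB
  have : Nontrivial Y := by
    by_contra h
    rw [not_nontrivial_iff_subsingleton] at h
    rw [Module.finrank_zero_of_subsingleton] at hY
    omega
  obtain ⟨F, hF, hspan⟩ := spanning_face Y hB
  have hsub : ({y : Y | ‖y‖ ≤ 1 ∧ F y = 1}).Subsingleton := by
    have hnorm : ∀ y : Y, ‖F y‖ ≤ ‖y‖ := by
      intro y
      calc ‖F y‖ ≤ ‖F‖ * ‖y‖ := F.le_opNorm y
        _ = ‖y‖ := by rw [hF, one_mul]
    intro y hy z hz
    have hy1 : ‖y‖ = 1 := by
      have h1 := hnorm y
      rw [hy.2, norm_one] at h1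
      exact le_antisymm hy.1 h1
    have hz1 : ‖z‖ = 1 := by
      have h1 := hnorm z
      rw [hz.2, norm_one] at h1
      exact le_antisymm hz.1 h1
    apply eq_of_norm_eq_of_norm_add_eq (hy1.trans hz1.symm)
    apply le_antisymm (norm_add_le y z)
    have h1 := hnorm (y + z)
    rw [map_add, hy.2, hz.2] at h1
    rw [hy1, hz1]
    have h2 : ‖(1 : ℂ) + 1‖ = 2 := by norm_num
    rw [h2] at h1
    linarith
  rcases Set.eq_empty_or_nonempty {y : Y | ‖y‖ ≤ 1 ∧ F y = 1} with h | ⟨y, hy⟩
  · rw [h, Submodule.span_empty] at hspan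
    have h1 := finrank_bot ℂ Y
    rw [hspan, finrank_top] at h1
    omega
  · have h1 : {y : Y | ‖y‖ ≤ 1 ∧ F y = 1} = {y} := hsub.eq_singleton_of_mem hy
    have hy0 : y ≠ 0 := by
      rintro rfl
      have h2 := hy.2
      simp at h2
    have h2 : Module.finrank ℂ (Submodule.span ℂ ({y} : Set Y)) = 1 :=
      finrank_span_singleton hy0
    rw [h1] at hspan
    rw [hspan, finrank_top] at h2
    omega

/-- The complex Euclidean plane does not have property B. -/
theorem euclidean_plane : ¬ PropertyB.{0, 0, 0} ℂ (EuclideanSpace ℂ (Fin 2)) :=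
  result (EuclideanSpace ℂ (Fin 2)) (by simp)

end Pool.Agent.Results.MP_152ea0_an.ComplexStrictlyConvex
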