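import Pool.Agent.STG.Main

/-!
# Real spaces which are flat to an order larger than two almost everywhere have property B

The criterion applies to many strictly convex spaces: every finite-dimensional real normed space is
arbitrarily close to a strictly convex one with Lindenstrauss' property B.
-/

open MeasureTheory Topology Filter Module Pool.Agent.PropB Pool.Agent.STG

namespace Pool.Agent.Results.MP_152ea0_an.HighOrderFlat

theorem result.{v, w} :
    (∀ (Y : Type v) [NormedAddCommGroup Y] [NormedSpace ℝ Y] [FiniteDimensional ℝ Y]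
      [MeasurableSpace Y] [BorelSpace Y] (μ : Measure Y) [μ.IsAddHaarMeasure],
      (∀ᵐ y ∂μ, ∃ (F : Y →L[ℝ] ℝ) (C p : ℝ), 2 < p ∧
        ∀ᶠ z in 𝓝 (0 : Y), ‖y + z‖ ≤ ‖y‖ + F z + C * ‖z‖ ^ p) →
      PropertyB.{0, v, w} ℝ Y) ∧
    ∀ (Y : Type v) [NormedAddCommGroup Y] [NormedSpace ℝ Y] [FiniteDimensional ℝ Y] (ε : ℝ),
      0 < ε → ∃ (Z : Type) (_ : NormedAddCommGroup Z) (_ : NormedSpace ℝ Z) (A : Y ≃L[ℝ] Z),
        StrictConvexSpace ℝ Z ∧ PropertyB.{0, 0, w} ℝ Z ∧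
        ∀ y, ‖y‖ ≤ ‖A y‖ ∧ ‖A y‖ ≤ (1 + ε) * ‖y‖ := by
  constructor
  · intro Y _ _ _ _ _ μ _ hflat
    apply propertyB_of_flat Y μ
    filter_upwards [hflat] with y hy
    obtain ⟨F, C, p, hp, h⟩ := hy
    exact ⟨F, C, p, by rwa [Nat.cast_one, mul_one], h⟩
  · intro Y _ _ _ ε hε
    obtain ⟨Z, i1, i2, A, -, hsc, hB, hA⟩ := exists_strictConvex_near.{v, w} Y hε
    exact ⟨Z, i1, i2, A, hsc, hB, hA⟩

end Pool.Agent.Results.MP_152ea0_an.HighOrderFlat
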