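import Pool.Agent.EUN.Lp

/-!
# Over the real scalars all smooth spaces of a dimension are equivalent for property B, and
# Euclidean spaces are the worst case

If one real normed space `Z` of finite dimension, whose norm is twice continuously differentiable
with positive definite transversal second derivative at one point, has Lindenstrauss' property B,
then all real normed spaces of dimension at most `dim Z` have it.
-/

open Module Pool.Agent.PropB Pool.Agent.EUN
open scoped ENNReal

namespace Pool.Agent.Results.MP_152ea0_an.SmoothUniversality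

theorem result.{v, v', w} :
    -- one space with one smooth point of positive curvature decides
    (∀ (Z : Type v') [NormedAddCommGroup Z] [NormedSpace ℝ Z] [FiniteDimensional ℝ Z] (z₁ : Z),
      ContDiffAt ℝ 2 (fun z : Z => ‖z‖) z₁ →
      (∀ w : Z, w ∉ Submodule.span ℝ {z₁} →
        0 < iteratedFDeriv ℝ 2 (fun z : Z => ‖z‖) z₁ ![w, w]) →
      PropertyB.{0, v', w} ℝ Z →
      ∀ (Y : Type v) [NormedAddCommGroup Y] [NormedSpace ℝ Y] [FiniteDimensional ℝ Y],
        finrank ℝ Y ≤ finrank ℝ Z → PropertyB.{0, v, w} ℝ Y) ∧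
    -- spaces with a twice continuously differentiable norm
    (∀ (Z : Type v') [NormedAddCommGroup Z] [NormedSpace ℝ Z] [FiniteDimensional ℝ Z],
      (∀ z : Z, z ≠ 0 → ContDiffAt ℝ 2 (fun z : Z => ‖z‖) z) →
      PropertyB.{0, v', w} ℝ Z →
      ∀ (Y : Type v) [NormedAddCommGroup Y] [NormedSpace ℝ Y] [FiniteDimensional ℝ Y],
        finrank ℝ Y ≤ finrank ℝ Z → PropertyB.{0, v, w} ℝ Y) ∧
    -- the spaces `ℓ_p^n`
    (∀ (n : ℕ) (p : ℝ≥0∞) [Fact (1 ≤ p)], 1 < p → p ≠ ∞ →
      PropertyB.{0, 0, w} ℝ (PiLp p fun _ : Fin n => ℝ) →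
      ∀ (Y : Type v) [NormedAddCommGroup Y] [NormedSpace ℝ Y] [FiniteDimensional ℝ Y],
        finrank ℝ Y ≤ n → PropertyB.{0, v, w} ℝ Y) ∧
    -- the real question is the question for Euclidean spaces
    ((∀ (Y : Type v) [NormedAddCommGroup Y] [NormedSpace ℝ Y] [FiniteDimensional ℝ Y],
        PropertyB.{0, v, w} ℝ Y) ↔
      ∀ n : ℕ, PropertyB.{0, 0, w} ℝ (EuclideanSpace ℝ (Fin n))) :=
  ⟨fun Z _ _ _ _ hz hpos hB Y _ _ _ hY => propertyB_of_smooth_point hz hpos hB Y hY,
    fun Z _ _ _ hC hB Y _ _ _ hY => propertyB_of_contDiffAt_norm hC hB Y hY,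
    fun n p _ hp hp' hB Y _ _ _ hY => propertyB_of_lp hp hp' hB Y hY,
    propertyB_all_iff_euclidean⟩

end Pool.Agent.Results.MP_152ea0_an.SmoothUniversality
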